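import Mathlib

/-!
# Labellings, merging of classes, and signed sums over smoothings

Generic machinery: partitions of a type `T` are recorded by labellings `T → ℕ`.
-/

set_option autoImplicit false

namespace Pool.Agent.H487R2.PenroseDP

section Labels

variable {T : Type*}

/-- Merge the classes of the two members of the pair `p`. -/
def merge (f : T → ℕ) (p : T × T) : T → ℕ := fun t =>
  if f t = max (f p.1) (f p.2) then min (f p.1) (f p.2) else f t

theorem merge_eq_iff (f : T → ℕ) (p : T × T) (t u : T) :
    merge f p t = merge f p u ↔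
      f t = f u ∨ (f t = f p.1 ∧ f u = f p.2) ∨ (f t = f p.2 ∧ f u = f p.1) := by
  unfold merge
  rcases le_total (f p.1) (f p.2) with h | h
  · rw [max_eq_right h, min_eq_left h]
    split_ifs <;> omega
  · rw [max_eq_left h, min_eq_right h]
    split_ifs <;> omega

/-- Merge successively all pairs of a list. -/
def mergeAll (f : T → ℕ) (L : List (T × T)) : T → ℕ := L.foldl merge f

@[simp] theorem mergeAll_nil (f : T → ℕ) : mergeAll f [] = f := rfl
@[simp] theorem mergeAll_cons (f : T → ℕ) (p : T × T) (L : List (T × T)) :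
    mergeAll f (p :: L) = mergeAll (merge f p) L := rfl

theorem mergeAll_append (f : T → ℕ) (L M : List (T × T)) :
    mergeAll f (L ++ M) = mergeAll (mergeAll f L) M := by
  simp [mergeAll, List.foldl_append]

theorem eqvGen_mono' {R S : T → T → Prop} (h : ∀ a b, R a b → Relation.EqvGen S a b) {t u : T}
    (ht : Relation.EqvGen R t u) : Relation.EqvGen S t u := by
  induction ht with
  | rel a b hab => exact h a b hab
  | refl a => exact Relation.EqvGen.refl a
  | symm a b _ ih => exact Relation.EqvGen.symm _ _ ih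
  | trans a b c _ _ ih1 ih2 => exact Relation.EqvGen.trans _ _ _ ih1 ih2

theorem mergeAll_eq_iff (L : List (T × T)) : ∀ (f : T → ℕ) (t u : T),
    mergeAll f L t = mergeAll f L u ↔
      Relation.EqvGen (fun x y => f x = f y ∨ (x, y) ∈ L) t u := by
  induction L with
  | nil =>
    intro f t u
    simp only [mergeAll_nil, List.not_mem_nil, or_false]
    constructor
    · intro h; exact Relation.EqvGen.rel _ _ h
    · intro h
      induction h with
      | rel a b hab => exact hab
      | refl a => rfl
      | symm a b _ ih => exact ih.symm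
      | trans a b c _ _ ih1 ih2 => exact ih1.trans ih2
  | cons p L ih =>
    intro f t u
    rw [mergeAll_cons, ih (merge f p) t u]
    constructor
    · refine eqvGen_mono' ?_
      rintro a b (hab | hab)
      · rw [merge_eq_iff] at hab
        have hp : Relation.EqvGen (fun x y => f x = f y ∨ (x, y) ∈ p :: L) p.1 p.2 :=
          Relation.EqvGen.rel _ _ (Or.inr (by simp))
        rcases hab with h | ⟨h1, h2⟩ | ⟨h1, h2⟩
        · exact Relation.EqvGen.rel _ _ (Or.inl h)
        · exact Relation.EqvGen.trans _ _ _ (Relation.EqvGen.rel _ _ (Or.inl h1))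
            (Relation.EqvGen.trans _ _ _ hp (Relation.EqvGen.rel _ _ (Or.inl h2.symm)))
        · exact Relation.EqvGen.trans _ _ _ (Relation.EqvGen.rel _ _ (Or.inl h1))
            (Relation.EqvGen.trans _ _ _ (Relation.EqvGen.symm _ _ hp)
              (Relation.EqvGen.rel _ _ (Or.inl h2.symm)))
      · exact Relation.EqvGen.rel _ _ (Or.inr (List.mem_cons_of_mem _ hab))
    · refine eqvGen_mono' ?_
      rintro a b (hab | hab)
      · refine Relation.EqvGen.rel _ _ (Or.inl ?_)
        rw [merge_eq_iff]; exact Or.inl hab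
      · rcases List.mem_cons.1 hab with h | h
        · subst h
          refine Relation.EqvGen.rel _ _ (Or.inl ?_)
          rw [merge_eq_iff]; exact Or.inr (Or.inl ⟨rfl, rfl⟩)
        · exact Relation.EqvGen.rel _ _ (Or.inr h)

/-- The sign picked up by merging the pairs of a list. -/
def sg (f : T → ℕ) : List (T × T) → ℤ
  | [] => 1
  | p :: L => (if f p.1 = f p.2 then 1 else -1) * sg (merge f p) L

theorem card_image_merge [Fintype T] [DecidableEq T] (f : T → ℕ) (p : T × T) :
    (-1 : ℤ) ^ (Finset.univ.image (merge f p)).card =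
      (if f p.1 = f p.2 then 1 else -1) * (-1 : ℤ) ^ (Finset.univ.image f).card := by
  by_cases h : f p.1 = f p.2
  · have : merge f p = f := by
      funext t
      unfold merge
      rw [h, max_self, min_self]
      split_ifs with h1
      · exact h1.symm
      · rfl
    rw [this, if_pos h, one_mul]
  · have himg : Finset.univ.image (merge f p) =
        (Finset.univ.image f).erase (max (f p.1) (f p.2)) := by
      ext x
      simp only [Finset.mem_image, Finset.mem_univ, true_and, Finset.mem_erase, merge]
      constructor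
      · rintro ⟨t, rfl⟩
        split_ifs with h1
        · refine ⟨by omega, ?_⟩
          rcases le_total (f p.1) (f p.2) with h2 | h2
          · exact ⟨p.1, by rw [min_eq_left h2]⟩
          · exact ⟨p.2, by rw [min_eq_right h2]⟩
        · exact ⟨h1, t, rfl⟩
      · rintro ⟨hx, t, rfl⟩
        exact ⟨t, if_neg hx⟩
    have hmem : max (f p.1) (f p.2) ∈ Finset.univ.image f := by
      simp only [Finset.mem_image, Finset.mem_univ, true_and]
      rcases le_total (f p.1) (f p.2) with h2 | h2
      · exact ⟨p.2, by rw [max_eq_right h2]⟩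
      · exact ⟨p.1, by rw [max_eq_left h2]⟩
    rw [himg, if_neg h]
    have hc := Finset.card_erase_add_one hmem
    rw [← hc, pow_succ]
    ring

theorem card_image_mergeAll [Fintype T] [DecidableEq T] (L : List (T × T)) : ∀ f : T → ℕ,
    (-1 : ℤ) ^ (Finset.univ.image (mergeAll f L)).card =
      sg f L * (-1 : ℤ) ^ (Finset.univ.image f).card := by
  induction L with
  | nil => intro f; simp [sg]
  | cons p L ih =>
    intro f
    rw [mergeAll_cons, ih, card_image_merge, sg]
    ring

theorem sg_append (L M : List (T × T)) : ∀ f : T → ℕ,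
    sg f (L ++ M) = sg f L * sg (mergeAll f L) M := by
  induction L with
  | nil => intro f; simp [sg]
  | cons p L ih =>
    intro f
    rw [List.cons_append, sg, ih, sg, mergeAll_cons]
    ring

/-- A gate: the pairs joined by the white smoothing and by the crossing. -/
abbrev Gate (T : Type*) := List (T × T) × List (T × T)

/-- Signed sum over all choices at the gates. -/
def val (f : T → ℕ) : List (Gate T) → ℤ
  | [] => 1
  | g :: Γ => sg f g.1 * val (mergeAll f g.1) Γ - sg f g.2 * val (mergeAll f g.2) Γ

/-- The pairs selected by the choice function `s`. -/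
def sel {n : ℕ} (Γ : Fin n → Gate T) (s : Fin n → Bool) : List (T × T) :=
  (List.ofFn fun e => if s e then (Γ e).2 else (Γ e).1).flatten

theorem sum_sel : ∀ (n : ℕ) (Γ : Fin n → Gate T) (f : T → ℕ),
    ∑ s : Fin n → Bool, (∏ e, if s e then (-1 : ℤ) else 1) * sg f (sel Γ s) =
      val f (List.ofFn Γ) := by
  intro n
  induction n with
  | zero =>
    intro Γ f
    simp [sel, sg, val]
  | succ n ih =>
    intro Γ f
    rw [← (Fin.consEquiv (fun _ : Fin (n + 1) => Bool)).sum_comp, Fintype.sum_prod_type]
    have hce : ∀ (b : Bool) (s : Fin n → Bool),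
        (Fin.consEquiv (fun _ : Fin (n + 1) => Bool)) (b, s) = Fin.cons b s := fun _ _ => rfl
    simp only [hce]
    have hsel : ∀ (b : Bool) (s : Fin n → Bool),
        sel Γ (Fin.cons b s : Fin (n + 1) → Bool) =
          (if b then (Γ 0).2 else (Γ 0).1) ++ sel (fun e => Γ e.succ) s := by
      intro b s
      simp [sel, List.ofFn_succ]
    simp only [hsel, sg_append, Fin.prod_univ_succ, Fin.cons_zero, Fin.cons_succ]
    rw [Fintype.sum_bool, List.ofFn_succ, val]
    rw [← ih (fun e => Γ e.succ) (mergeAll f (Γ 0).1), ← ih (fun e => Γ e.succ) (mergeAll f (Γ 0).2)]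
    simp only [Finset.mul_sum, if_true, Bool.false_eq_true, if_false]
    rw [add_comm, sub_eq_add_neg, ← Finset.sum_neg_distrib]
    congr 1
    · refine Finset.sum_congr rfl fun s _ => ?_
      ring
    · refine Finset.sum_congr rfl fun s _ => ?_
      ring

/-- `f` and `g` have the same classes on the set of elements satisfying `A`. -/
def Agree (A : T → Prop) (f g : T → ℕ) : Prop :=
  ∀ t u, A t → A u → (f t = f u ↔ g t = g u)

/-- All entries of a list of pairs satisfy `A`. -/
def In (A : T → Prop) (L : List (T × T)) : Prop := ∀ p ∈ L, A p.1 ∧ A p.2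

theorem Agree.merge {A : T → Prop} {f g : T → ℕ} (h : Agree A f g) {p : T × T}
    (h1 : A p.1) (h2 : A p.2) :
    Agree A (PenroseDP.merge f p) (PenroseDP.merge g p) := by
  intro t u ht hu
  rw [merge_eq_iff, merge_eq_iff, h t u ht hu, h t p.1 ht h1, h u p.2 hu h2, h t p.2 ht h2,
    h u p.1 hu h1]

theorem Agree.mergeAll {A : T → Prop} (L : List (T × T)) : ∀ {f g : T → ℕ}, Agree A f g →
    In A L → Agree A (PenroseDP.mergeAll f L) (PenroseDP.mergeAll g L) ∧ sg f L = sg g L := by
  induction L with
  | nil => intro f g h _; exact ⟨h, rfl⟩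
  | cons p L ih =>
    intro f g h hL
    have hp := hL p (by simp)
    have hL' : In A L := fun q hq => hL q (List.mem_cons_of_mem _ hq)
    obtain ⟨i1, i2⟩ := ih (h.merge hp.1 hp.2) hL'
    refine ⟨i1, ?_⟩
    rw [sg, sg, i2]
    congr 1
    have := h p.1 p.2 hp.1 hp.2
    by_cases hh : f p.1 = f p.2
    · rw [if_pos hh, if_pos (this.1 hh)]
    · rw [if_neg hh, if_neg (fun h' => hh (this.2 h'))]

theorem val_congr {A : T → Prop} (Γ : List (Gate T)) : ∀ {f g : T → ℕ}, Agree A f g →
    (∀ γ ∈ Γ, In A γ.1 ∧ In A γ.2) → val f Γ = val g Γ := by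
  induction Γ with
  | nil => intro f g _ _; rfl
  | cons γ Γ ih =>
    intro f g h hΓ
    have hγ := hΓ γ (by simp)
    have hΓ' : ∀ γ' ∈ Γ, In A γ'.1 ∧ In A γ'.2 := fun q hq => hΓ q (List.mem_cons_of_mem _ hq)
    obtain ⟨a1, a2⟩ := h.mergeAll γ.1 hγ.1
    obtain ⟨b1, b2⟩ := h.mergeAll γ.2 hγ.2
    rw [val, val, a2, b2, ih a1 hΓ', ih b1 hΓ']

/-- Transport along a map `i : T → S`. -/
theorem merge_comp {S : Type*} (i : T → S) (f : S → ℕ) (p : T × T) :
    merge (f ∘ i) p = merge f (i p.1, i p.2) ∘ i := rfl

theorem mergeAll_comp {S : Type*} (i : T → S) (L : List (T × T)) : ∀ f : S → ℕ,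
    mergeAll (f ∘ i) L = mergeAll f (L.map fun p => (i p.1, i p.2)) ∘ i := by
  induction L with
  | nil => intro f; rfl
  | cons p L ih =>
    intro f
    rw [mergeAll_cons, merge_comp, ih, List.map_cons, mergeAll_cons]

theorem sg_comp {S : Type*} (i : T → S) (L : List (T × T)) : ∀ f : S → ℕ,
    sg (f ∘ i) L = sg f (L.map fun p => (i p.1, i p.2)) := by
  induction L with
  | nil => intro f; rfl
  | cons p L ih =>
    intro f
    rw [List.map_cons, sg, sg, merge_comp, ih]
    rfl

theorem val_comp {S : Type*} (i : T → S) (Γ : List (Gate T)) : ∀ f : S → ℕ,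
    val (f ∘ i) Γ = val f (Γ.map fun γ => (γ.1.map fun p => (i p.1, i p.2),
      γ.2.map fun p => (i p.1, i p.2))) := by
  induction Γ with
  | nil => intro f; rfl
  | cons γ Γ ih =>
    intro f
    rw [List.map_cons, val, val, sg_comp, sg_comp, mergeAll_comp, mergeAll_comp, ih, ih]

end Labels

section Lists

/-- The labelling of `ℕ` given by a list. -/
def dec (l : List ℕ) : ℕ → ℕ := fun t => l.getD t 0

/-- Apply `k` to `n`; in the kernel this forces the evaluation of `n`. -/
def frc {β : Type} (n : ℕ) (k : ℕ → β) : β :=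
  match n with
  | 0 => k 0
  | m + 1 => k (m + 1)

theorem frc_eq {β : Type} (n : ℕ) (k : ℕ → β) : frc n k = k n := by cases n <;> rfl

def nth : List ℕ → ℕ → ℕ
  | [], _ => 0
  | x :: _, 0 => x
  | _ :: l, n + 1 => nth l n

theorem nth_eq (l : List ℕ) : ∀ n, nth l n = l.getD n 0 := by
  induction l with
  | nil => intro n; simp [nth]
  | cons x l ih =>
    intro n
    cases n with
    | zero => simp [nth]
    | succ n => rw [nth, ih]; simp

def relab (hi lo : ℕ) : List ℕ → List ℕ
  | [] => []
  | x :: l => frc x fun x => (bif Nat.beq x hi then lo else x) :: relab hi lo l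

theorem relab_eq (hi lo : ℕ) (l : List ℕ) :
    relab hi lo l = l.map fun x => if x = hi then lo else x := by
  induction l with
  | nil => rfl
  | cons x l ih =>
    rw [relab, frc_eq, ih, List.map_cons]
    congr 1
    by_cases h : x = hi
    · subst h; simp
    · have : Nat.beq x hi = false := by
        rw [← Bool.not_eq_true, Nat.beq_eq]; exact h
      rw [this, if_neg h]; rfl

def mergeL (l : List ℕ) (p : ℕ × ℕ) : List ℕ :=
  frc (nth l p.1) fun a => frc (nth l p.2) fun b =>
    bif Nat.beq a b then l else bif Nat.ble a b then relab b a l else relab a b l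

theorem mergeL_eq (l : List ℕ) (p : ℕ × ℕ) : mergeL l p =
    l.map fun x => if x = max (l.getD p.1 0) (l.getD p.2 0) then
      min (l.getD p.1 0) (l.getD p.2 0) else x := by
  unfold mergeL
  rw [frc_eq, frc_eq, nth_eq, nth_eq]
  set a := l.getD p.1 0
  set b := l.getD p.2 0
  by_cases h : a = b
  · have : Nat.beq a b = true := by rw [Nat.beq_eq]; exact h
    rw [this, h, max_self, min_self]
    simp only [cond_true]
    have : ∀ x ∈ l, (if x = b then b else x) = x := by
      intro x _; split_ifs with h; exacts [h.symm, rfl]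
    rw [List.map_congr_left this, List.map_id']
  · have hb : Nat.beq a b = false := by rw [← Bool.not_eq_true, Nat.beq_eq]; exact h
    rw [hb]
    simp only [cond_false]
    rcases le_total a b with h1 | h1
    · have : Nat.ble a b = true := by rw [Nat.ble_eq]; exact h1
      rw [this, max_eq_right h1, min_eq_left h1, cond_true, relab_eq]
    · have : Nat.ble a b = false := by rw [← Bool.not_eq_true, Nat.ble_eq]; omega
      rw [this, max_eq_left h1, min_eq_right h1, cond_false, relab_eq]

theorem getD_map_of_lt (l : List ℕ) (g : ℕ → ℕ) (t : ℕ) (ht : t < l.length) :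
    (l.map g).getD t 0 = g (l.getD t 0) := by
  simp [List.getD_eq_getElem?_getD, ht]

@[simp] theorem length_mergeL (l : List ℕ) (p : ℕ × ℕ) : (mergeL l p).length = l.length := by
  simp [mergeL_eq]

theorem agree_mergeL (N : ℕ) (l : List ℕ) (hl : l.length = N) (p : ℕ × ℕ) :
    ∀ t, t < N → dec (mergeL l p) t = merge (dec l) p t := by
  intro t ht
  unfold dec merge
  rw [mergeL_eq, getD_map_of_lt _ _ _ (by omega)]

/-- Sign and labelling after merging a list of pairs. -/
def runL : List (ℕ × ℕ) → ℤ → List ℕ → ℤ × List ℕ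
  | [], w, l => (w, l)
  | p :: L, w, l => runL L (bif Nat.beq (nth l p.1) (nth l p.2) then w else -w) (mergeL l p)

theorem beq_cond (a b : ℕ) (w : ℤ) : (bif Nat.beq a b then w else -w) = if a = b then w else -w := by
  by_cases h : a = b
  · subst h; simp
  · have hb : Nat.beq a b = false := by rw [← Bool.not_eq_true, Nat.beq_eq]; exact h
    rw [hb, if_neg h]; rfl

theorem Agree.trans' {T : Type*} {A : T → Prop} {f g h : T → ℕ} (h1 : Agree A f g)
    (h2 : Agree A g h) : Agree A f h := fun t u ht hu => (h1 t u ht hu).trans (h2 t u ht hu)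

theorem runL_spec (N : ℕ) (L : List (ℕ × ℕ)) : ∀ (w : ℤ) (l : List ℕ), l.length = N →
    (∀ p ∈ L, p.1 < N ∧ p.2 < N) →
    (runL L w l).1 = w * sg (dec l) L ∧ (runL L w l).2.length = N ∧
      Agree (fun t => t < N) (dec (runL L w l).2) (mergeAll (dec l) L) := by
  induction L with
  | nil =>
    intro w l hl _
    refine ⟨by simp [runL, sg], hl, fun t u _ _ => Iff.rfl⟩
  | cons p L ih =>
    intro w l hl hL
    have hp := hL p (by simp)
    have hL' : ∀ q ∈ L, q.1 < N ∧ q.2 < N := fun q hq => hL q (List.mem_cons_of_mem _ hq)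
    have hlen : (mergeL l p).length = N := by rw [length_mergeL, hl]
    obtain ⟨h1, h2, h3⟩ := ih (if l.getD p.1 0 = l.getD p.2 0 then w else -w) (mergeL l p) hlen hL'
    have hr : runL (p :: L) w l = runL L (if l.getD p.1 0 = l.getD p.2 0 then w else -w)
        (mergeL l p) := by rw [runL, beq_cond, nth_eq, nth_eq]
    have hag : Agree (fun t => t < N) (dec (mergeL l p)) (merge (dec l) p) := by
      intro t u ht hu
      rw [agree_mergeL N l hl p t ht, agree_mergeL N l hl p u hu]
    obtain ⟨a1, a2⟩ := hag.mergeAll L (fun q hq => hL' q hq)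
    rw [hr]
    refine ⟨?_, h2, ?_⟩
    · rw [h1, a2, sg]
      unfold dec
      split_ifs <;> ring
    · rw [mergeAll_cons]
      exact h3.trans' a1

/-- Position (counted from `i`) of the first entry equal to `p` at a position other than `p`,
or `0` if there is none. -/
def findO (p : ℕ) : ℕ → List ℕ → ℕ
  | _, [] => 0
  | i, x :: l => bif Nat.beq x p && !(Nat.beq i p) then i else findO p (i + 1) l

/-- Swap the labels `p` and `q`. -/
def swapL (p q : ℕ) : List ℕ → List ℕ
  | [] => []
  | x :: l => frc x fun x => (bif Nat.beq x p then q else bif Nat.beq x q then p else x) ::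
      swapL p q l

theorem swapL_eq (p q : ℕ) (l : List ℕ) :
    swapL p q l = l.map fun x => if x = p then q else if x = q then p else x := by
  induction l with
  | nil => rfl
  | cons x l ih =>
    rw [swapL, frc_eq, ih, List.map_cons]
    congr 1
    by_cases h : x = p
    · subst h; simp
    · have h1 : Nat.beq x p = false := by
        rw [← Bool.not_eq_true, Nat.beq_eq]; exact h
      rw [h1, if_neg h]
      by_cases h2 : x = q
      · subst h2; simp
      · have h3 : Nat.beq x q = false := by
          rw [← Bool.not_eq_true, Nat.beq_eq]; exact h2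
        rw [h3, if_neg h2]; rfl

def setL (v : ℕ) : List ℕ → ℕ → List ℕ
  | [], _ => []
  | _ :: l, 0 => v :: l
  | x :: l, n + 1 => x :: setL v l n

theorem setL_eq (v : ℕ) (l : List ℕ) : ∀ n, setL v l n = l.set n v := by
  induction l with
  | nil => intro n; cases n <;> rfl
  | cons x l ih =>
    intro n
    cases n with
    | zero => rfl
    | succ n => rw [setL, ih]; rfl

/-- Forget the position `p` (which is not used any more), keeping the labelling in a
normal form. -/
def kill (N : ℕ) (l : List ℕ) (p : ℕ) : List ℕ :=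
  bif Nat.beq (nth l p) p then
    frc (findO p 0 l) fun q =>
      bif Nat.beq q 0 then setL N l p else setL N (swapL p q l) p
  else setL N l p

theorem dec_set_ne (l : List ℕ) (p v t : ℕ) (ht : t ≠ p) : dec (l.set p v) t = dec l t := by
  unfold dec
  simp [List.getD_eq_getElem?_getD, List.getElem?_set_ne (Ne.symm ht)]

theorem kill_spec (N : ℕ) (l : List ℕ) (hl : l.length = N) (p : ℕ) :
    (kill N l p).length = N ∧ Agree (fun t => t < N ∧ t ≠ p) (dec (kill N l p)) (dec l) := by
  have hset : (setL N l p).length = N ∧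
      Agree (fun t => t < N ∧ t ≠ p) (dec (setL N l p)) (dec l) := by
    refine ⟨by simp [setL_eq, hl], ?_⟩
    rintro t u ⟨ht, htp⟩ ⟨hu, hup⟩
    rw [setL_eq, dec_set_ne _ _ _ _ htp, dec_set_ne _ _ _ _ hup]
  unfold kill
  cases Nat.beq (nth l p) p with
  | false => exact hset
  | true =>
    rw [cond_true, frc_eq]
    cases Nat.beq (findO p 0 l) 0 with
    | true => exact hset
    | false =>
      rw [cond_false]
      refine ⟨by simp [setL_eq, swapL_eq, hl], ?_⟩
      rintro t u ⟨ht, htp⟩ ⟨hu, hup⟩
      rw [setL_eq, dec_set_ne _ _ _ _ htp, dec_set_ne _ _ _ _ hup, swapL_eq]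
      unfold dec
      rw [getD_map_of_lt _ _ _ (by omega), getD_map_of_lt _ _ _ (by omega)]
      split_ifs <;> omega

def killAll (N : ℕ) (l : List ℕ) (P : List ℕ) : List ℕ := P.foldl (kill N) l

theorem killAll_spec (N : ℕ) (P : List ℕ) : ∀ (l : List ℕ), l.length = N →
    (killAll N l P).length = N ∧ Agree (fun t => t < N ∧ t ∉ P) (dec (killAll N l P)) (dec l) := by
  induction P with
  | nil => intro l hl; exact ⟨hl, fun t u _ _ => Iff.rfl⟩
  | cons p P ih =>
    intro l hl
    obtain ⟨k1, k2⟩ := kill_spec N l hl p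
    obtain ⟨i1, i2⟩ := ih (kill N l p) k1
    refine ⟨i1, ?_⟩
    rintro t u ⟨ht, htp⟩ ⟨hu, hup⟩
    rw [List.mem_cons, not_or] at htp hup
    have e1 := i2 t u ⟨ht, htp.2⟩ ⟨hu, hup.2⟩
    have e2 := k2 t u ⟨ht, htp.1⟩ ⟨hu, hup.1⟩
    exact e1.trans e2

/-- A step of the program: a gate and the list of positions which are forgotten after it. -/
abbrev Instr := (List (ℕ × ℕ) × List (ℕ × ℕ)) × List ℕ

/-- Formal sums of labellings. The first entry is a key used to speed up comparisons. -/
abbrev State := ℕ × ℤ × List ℕ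

def key (l : List ℕ) : ℕ := l.foldl (fun a x => a * 64 + x) 0

def insertS (x : State) : List State → List State
  | [] => [x]
  | y :: ys => bif Nat.beq x.1 y.1 then (if x.2.2 = y.2.2 then (y.1, y.2.1 + x.2.1, y.2.2) :: ys
      else y :: insertS x ys) else y :: insertS x ys

def mk (N : ℕ) (P : List ℕ) (r : ℤ × List ℕ) : State :=
  (fun l => frc (key l) fun k => (k, r.1, l)) (killAll N r.2 P)

theorem mk_eq (N : ℕ) (P : List ℕ) (r : ℤ × List ℕ) :
    mk N P r = (key (killAll N r.2 P), r.1, killAll N r.2 P) := by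
  unfold mk
  beta_reduce
  rw [frc_eq]

def step (N : ℕ) (i : Instr) (S : List State) : List State :=
  (S.foldl (fun acc x => insertS (mk N i.2 (runL i.1.2 (-x.2.1) x.2.2))
    (insertS (mk N i.2 (runL i.1.1 x.2.1 x.2.2)) acc)) []).filter fun x => !(x.2.1 == 0)

def run (N : ℕ) : List Instr → List State → List State
  | [], S => S
  | i :: I, S => run N I (step N i S)

/-- The value of a formal sum. -/
def tot (Γ : List (Gate ℕ)) (S : List State) : ℤ := (S.map fun x => x.2.1 * val (dec x.2.2) Γ).sum

theorem tot_filter (Γ : List (Gate ℕ)) (S : List State) :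
    tot Γ (S.filter fun x => !(x.2.1 == 0)) = tot Γ S := by
  induction S with
  | nil => rfl
  | cons y ys ih =>
    have e : tot Γ (y :: ys) = y.2.1 * val (dec y.2.2) Γ + tot Γ ys := by simp [tot]
    by_cases h : y.2.1 = 0
    · rw [List.filter_cons_of_neg (by simp [h]), ih, e, h, zero_mul, zero_add]
    · rw [List.filter_cons_of_pos (by simp [h]), e, ← ih]
      simp [tot]

theorem tot_insertS (Γ : List (Gate ℕ)) (x : State) (S : List State) :
    tot Γ (insertS x S) = x.2.1 * val (dec x.2.2) Γ + tot Γ S := by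
  induction S with
  | nil => simp [insertS, tot]
  | cons y ys ih =>
    unfold insertS
    cases Nat.beq x.1 y.1 with
    | true =>
      rw [cond_true]
      split_ifs with h2
      · simp only [tot, List.map_cons, List.sum_cons, h2]
        ring
      · have : tot Γ (y :: insertS x ys) = y.2.1 * val (dec y.2.2) Γ + tot Γ (insertS x ys) := by
          simp [tot]
        rw [this, ih]
        simp only [tot, List.map_cons, List.sum_cons]
        ring
    | false =>
      rw [cond_false]
      have : tot Γ (y :: insertS x ys) = y.2.1 * val (dec y.2.2) Γ + tot Γ (insertS x ys) := by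
        simp [tot]
      rw [this, ih]
      simp only [tot, List.map_cons, List.sum_cons]
      ring

/-- Well-formedness of a program. -/
def ok (N : ℕ) : List Instr → Bool
  | [] => true
  | i :: I => (i.1.1.all fun p => decide (p.1 < N) && decide (p.2 < N)) &&
      (i.1.2.all fun p => decide (p.1 < N) && decide (p.2 < N)) &&
      (I.all fun j => (j.1.1.all fun p => !(i.2.contains p.1) && !(i.2.contains p.2)) &&
        (j.1.2.all fun p => !(i.2.contains p.1) && !(i.2.contains p.2))) && ok N I

def lenOK (N : ℕ) (S : List State) : Prop := ∀ x ∈ S, x.2.2.length = N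

theorem lenOK_insertS (N : ℕ) (x : State) (hx : x.2.2.length = N) (S : List State)
    (hS : lenOK N S) : lenOK N (insertS x S) := by
  induction S with
  | nil => intro y hy; simp only [insertS, List.mem_singleton] at hy; rw [hy]; exact hx
  | cons y ys ih =>
    have hy := hS y (by simp)
    have hys : lenOK N ys := fun z hz => hS z (List.mem_cons_of_mem _ hz)
    unfold insertS
    cases Nat.beq x.1 y.1 with
    | true =>
      rw [cond_true]
      split_ifs with h2
      · intro z hz
        rcases List.mem_cons.1 hz with h | h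
        · rw [h]; exact hy
        · exact hys z h
      · intro z hz
        rcases List.mem_cons.1 hz with h | h
        · rw [h]; exact hy
        · exact ih hys z h
    | false =>
      rw [cond_false]
      intro z hz
      rcases List.mem_cons.1 hz with h | h
      · rw [h]; exact hy
      · exact ih hys z h

theorem step_spec (N : ℕ) (i : Instr) (Γ : List (Gate ℕ))
    (h1 : ∀ p ∈ i.1.1, p.1 < N ∧ p.2 < N) (h2 : ∀ p ∈ i.1.2, p.1 < N ∧ p.2 < N)
    (hΓ : ∀ γ ∈ Γ, In (fun t => t < N ∧ t ∉ i.2) γ.1 ∧ In (fun t => t < N ∧ t ∉ i.2) γ.2)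
    (S : List State) (hS : lenOK N S) :
    lenOK N (step N i S) ∧ tot Γ (step N i S) = tot (i.1 :: Γ) S := by
  have key : ∀ (S acc : List State), lenOK N S → lenOK N acc →
      lenOK N (S.foldl (fun acc x => insertS (mk N i.2 (runL i.1.2 (-x.2.1) x.2.2))
        (insertS (mk N i.2 (runL i.1.1 x.2.1 x.2.2)) acc)) acc) ∧
      tot Γ (S.foldl (fun acc x => insertS (mk N i.2 (runL i.1.2 (-x.2.1) x.2.2))
        (insertS (mk N i.2 (runL i.1.1 x.2.1 x.2.2)) acc)) acc) =
        tot Γ acc + tot (i.1 :: Γ) S := by
    intro S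
    induction S with
    | nil => intro acc _ hacc; exact ⟨hacc, by simp [tot]⟩
    | cons x S ih =>
      intro acc hS hacc
      have hx := hS x (by simp)
      have hS' : lenOK N S := fun z hz => hS z (List.mem_cons_of_mem _ hz)
      obtain ⟨a1, a2, a3⟩ := runL_spec N i.1.1 x.2.1 x.2.2 hx h1
      obtain ⟨b1, b2, b3⟩ := runL_spec N i.1.2 (-x.2.1) x.2.2 hx h2
      obtain ⟨c1, c2⟩ := killAll_spec N i.2 _ a2
      obtain ⟨d1, d2⟩ := killAll_spec N i.2 _ b2
      have hacc' : lenOK N (insertS (mk N i.2 (runL i.1.2 (-x.2.1) x.2.2))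
        (insertS (mk N i.2 (runL i.1.1 x.2.1 x.2.2)) acc)) :=
        lenOK_insertS N _ (by rw [mk_eq]; exact d1) _
          (lenOK_insertS N _ (by rw [mk_eq]; exact c1) _ hacc)
      obtain ⟨e1, e2⟩ := ih _ hS' hacc'
      refine ⟨e1, ?_⟩
      rw [List.foldl_cons, e2, tot_insertS, tot_insertS]
      have v1 : val (dec (mk N i.2 (runL i.1.1 x.2.1 x.2.2)).2.2) Γ =
          val (mergeAll (dec x.2.2) i.1.1) Γ := by
        refine val_congr (A := fun t => t < N ∧ t ∉ i.2) Γ ?_ hΓ
        intro t u ht hu
        rw [mk_eq]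
        exact (c2 t u ht hu).trans (a3 t u ht.1 hu.1)
      have v2 : val (dec (mk N i.2 (runL i.1.2 (-x.2.1) x.2.2)).2.2) Γ =
          val (mergeAll (dec x.2.2) i.1.2) Γ := by
        refine val_congr (A := fun t => t < N ∧ t ∉ i.2) Γ ?_ hΓ
        intro t u ht hu
        rw [mk_eq]
        exact (d2 t u ht hu).trans (b3 t u ht.1 hu.1)
      rw [v1, v2]
      have w1 : (mk N i.2 (runL i.1.1 x.2.1 x.2.2)).2.1 = x.2.1 * sg (dec x.2.2) i.1.1 := by
        rw [mk_eq]; exact a1
      have w2 : (mk N i.2 (runL i.1.2 (-x.2.1) x.2.2)).2.1 = -x.2.1 * sg (dec x.2.2) i.1.2 := by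
        rw [mk_eq]; exact b1
      rw [w1, w2]
      simp only [tot, List.map_cons, List.sum_cons, val]
      ring
  have := key S [] hS (by intro x hx; simp at hx)
  refine ⟨fun x hx => this.1 x (List.mem_filter.1 hx).1, ?_⟩
  unfold step
  rw [tot_filter, this.2]
  simp [tot]

theorem run_spec (N : ℕ) : ∀ (I : List Instr) (S : List State), ok N I = true → lenOK N S →
    tot [] (run N I S) = tot (I.map Prod.fst) S := by
  intro I
  induction I with
  | nil => intro S _ _; rfl
  | cons i I ih =>
    intro S hok hS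
    unfold ok at hok
    simp only [Bool.and_eq_true, List.all_eq_true, decide_eq_true_eq, Bool.not_eq_true',
      List.contains_eq_mem, decide_eq_false_iff_not] at hok
    obtain ⟨⟨⟨h1, h2⟩, h3⟩, h4⟩ := hok
    have hin : ∀ (I : List Instr), ok N I = true → ∀ j ∈ I, (∀ p ∈ j.1.1, p.1 < N ∧ p.2 < N) ∧
        (∀ p ∈ j.1.2, p.1 < N ∧ p.2 < N) := by
      intro I
      induction I with
      | nil => intro _ j hj; simp at hj
      | cons i' I' ih' =>
        intro hok' j hj
        unfold ok at hok'
        simp only [Bool.and_eq_true, List.all_eq_true, decide_eq_true_eq] at hok'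
        rcases List.mem_cons.1 hj with h | h
        · subst h; exact ⟨hok'.1.1.1, hok'.1.1.2⟩
        · exact ih' hok'.2 j h
    obtain ⟨s1, s2⟩ := step_spec N i (I.map Prod.fst) h1 h2 (by
      intro γ hγ
      obtain ⟨j, hj, rfl⟩ := List.mem_map.1 hγ
      have hj3 := h3 j hj
      have hj4 := hin I h4 j hj
      exact ⟨fun p hp => ⟨⟨(hj4.1 p hp).1, (hj3.1 p hp).1⟩, ⟨(hj4.1 p hp).2, (hj3.1 p hp).2⟩⟩,
        fun p hp => ⟨⟨(hj4.2 p hp).1, (hj3.2 p hp).1⟩, ⟨(hj4.2 p hp).2, (hj3.2 p hp).2⟩⟩⟩) S hS
    rw [run, ih _ h4 s1, s2]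
    rfl

theorem run_final (N : ℕ) (I : List Instr) (l : List ℕ) (hok : ok N I = true)
    (hl : l.length = N) :
    val (dec l) (I.map Prod.fst) = ((run N I [(0, 1, l)]).map fun x => x.2.1).sum := by
  have h := run_spec N I [(0, 1, l)] hok (by
    intro x hx
    rw [List.mem_singleton] at hx
    rw [hx]
    exact hl)
  have h4 : tot (I.map Prod.fst) [(0, 1, l)] = val (dec l) (I.map Prod.fst) := by
    unfold tot
    rw [List.map_cons, List.map_nil, List.sum_cons, List.sum_nil, one_mul, add_zero]
  rw [← h4, ← h]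
  unfold tot
  congr 1
  refine List.map_congr_left fun x _ => ?_
  rw [val, mul_one]

end Lists

end Pool.Agent.H487R2.PenroseDP
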